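import Mathlib
import Pool.Agent.W528.Odd.Core
import Pool.Agent.W261.OT.Comm

/-!
# Square-zero elements attached to the eigenvalues of a product of two square-zero elements

For square-zero elements `n`, `n'` of a Lie algebra of operators and a nonzero eigenvalue `λ` of
`n n'`, the Lie algebra contains a square-zero element whose rank is the algebraic multiplicity of
`λ`.
-/

set_option linter.unusedSectionVars false

namespace Pool.Agent.Y126.OT

open Module Pool.Agent.W528.Odd Polynomial Pool.Agent.W261.OT.Comm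

noncomputable section

variable {K : Type} [Field K] [CharZero K] {V : Type} [AddCommGroup V] [Module K V]

/-- Words in two square-zero elements. -/
theorem word_mem {𝔥 : Submodule K (Module.End K V)}
    (hbr : ∀ X ∈ 𝔥, ∀ Y ∈ 𝔥, X * Y - Y * X ∈ 𝔥) {n n' : Module.End K V}
    (hn : n ∈ 𝔥) (hn2 : n * n = 0) (hn' : n' ∈ 𝔥) (hn2' : n' * n' = 0) (k : ℕ) :
    (n * n') ^ k * n ∈ 𝔥 ∧ (n' * n) ^ k * n' ∈ 𝔥 := by
  have hsm : ∀ {n x : Module.End K V}, n ∈ 𝔥 → n * n = 0 → x ∈ 𝔥 → n * x * n ∈ 𝔥 := by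
    intro n x hn hn2 hx
    have h1 := hbr _ hn _ (hbr _ hn _ hx)
    have h2 : n * (n * x - x * n) - (n * x - x * n) * n = (-2 : K) • (n * x * n) := by
      have h3 : n * (n * x - x * n) - (n * x - x * n) * n =
          (n * n) * x - n * x * n - n * x * n + x * (n * n) := by noncomm_ring
      rw [h3, hn2, zero_mul, mul_zero]
      module
    rw [h2] at h1
    exact (Submodule.smul_mem_iff _ (by norm_num : (-2 : K) ≠ 0)).1 h1
  induction k with
  | zero => simpa using ⟨hn, hn'⟩
  | succ k ih =>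
    obtain ⟨h1, h2⟩ := ih
    constructor
    · have h3 : (n * n') ^ (k + 1) * n = n * ((n' * n) ^ k * n') * n := by
        rw [mul_pow_mul, pow_succ]
        simp only [mul_assoc]
      rw [h3]
      exact hsm hn hn2 h2
    · have h3 : (n' * n) ^ (k + 1) * n' = n' * ((n * n') ^ k * n) * n' := by
        rw [mul_pow_mul, pow_succ]
        simp only [mul_assoc]
      rw [h3]
      exact hsm hn' hn2' h1

/-- Polynomials in the product of two square-zero elements. -/
theorem poly_mem {𝔥 : Submodule K (Module.End K V)}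
    (hbr : ∀ X ∈ 𝔥, ∀ Y ∈ 𝔥, X * Y - Y * X ∈ 𝔥) {n n' : Module.End K V}
    (hn : n ∈ 𝔥) (hn2 : n * n = 0) (hn' : n' ∈ 𝔥) (hn2' : n' * n' = 0) (p : K[X]) :
    aeval (n * n') p * n ∈ 𝔥 := by
  rw [Polynomial.aeval_eq_sum_range, Finset.sum_mul]
  refine Submodule.sum_mem _ fun i _ => ?_
  rw [smul_mul_assoc]
  exact 𝔥.smul_mem _ (word_mem hbr hn hn2 hn' hn2' i).1

/-- The spectral polynomial for the nonzero eigenvalue `l` of `n n'`. -/
theorem exists_poly [FiniteDimensional K V] {n n' : Module.End K V} (hn2 : n * n = 0)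
    {l : K} (hl : l ≠ 0) :
    ∃ p : K[X], X ∣ p ∧ (aeval (n * n') p * n) * (aeval (n * n') p * n) = 0 ∧
      LinearMap.range (aeval (n * n') p * n) = (n * n').maxGenEigenspace l ∧
      ∀ w ∈ (n * n').maxGenEigenspace l, aeval (n * n') p w = w := by
  obtain ⟨A, hA⟩ : ∃ A, A = n * n' := ⟨_, rfl⟩
  rw [← hA]
  have hq0 : (X * minpoly K A : K[X]) ≠ 0 :=
    mul_ne_zero X_ne_zero (minpoly.ne_zero (Algebra.IsIntegral.isIntegral A))
  obtain ⟨Q, hQ1, hQ2⟩ := Polynomial.exists_eq_pow_rootMultiplicity_mul_and_not_dvd _ hq0 l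
  obtain ⟨k, hk⟩ : ∃ k, k = rootMultiplicity l (X * minpoly K A : K[X]) := ⟨_, rfl⟩
  rw [← hk] at hQ1
  have hcop : IsCoprime (X - C l) Q :=
    (Polynomial.irreducible_X_sub_C l).coprime_iff_not_dvd.2 hQ2
  have hX : X ∣ Q := by
    have h1 : X ∣ (X - C l) ^ k * Q := by
      rw [← hQ1]
      exact dvd_mul_right _ _
    have h2 : IsCoprime X ((X - C l) ^ k) := by
      refine IsCoprime.pow_right ?_
      have h3 : ¬ X ∣ (X - C l : K[X]) := by
        rw [Polynomial.X_dvd_iff]
        simpa using hl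
      exact (Polynomial.irreducible_X).coprime_iff_not_dvd.2 h3
    exact h2.dvd_of_dvd_mul_left h1
  obtain ⟨M, hM⟩ : ∃ M, M = k + finrank K V := ⟨_, rfl⟩
  have hE : ∀ w, w ∈ A.maxGenEigenspace l ↔ ((A - l • (1 : Module.End K V)) ^ M) w = 0 := by
    intro w
    rw [Module.End.mem_maxGenEigenspace]
    constructor
    · rintro ⟨j, hj⟩
      have h1 : w ∈ A.maxGenEigenspace l := (Module.End.mem_maxGenEigenspace _ _ _).2 ⟨j, hj⟩
      rw [Module.End.maxGenEigenspace_eq_genEigenspace_finrank,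
        Module.End.mem_genEigenspace_nat, LinearMap.mem_ker] at h1
      rw [hM, pow_add, Module.End.mul_apply, h1, map_zero]
    · intro h
      exact ⟨M, h⟩
  obtain ⟨u, v, huv⟩ := (IsCoprime.pow_left (m := M) hcop : IsCoprime ((X - C l) ^ M) Q)
  obtain ⟨Q', hQ'⟩ := hX
  have hae : ∀ j, aeval A ((X - C l : K[X]) ^ j) = (A - l • (1 : Module.End K V)) ^ j := by
    intro j
    rw [map_pow, map_sub, aeval_X, aeval_C, Algebra.algebraMap_eq_smul_one]
  have hkill : aeval A ((X - C l) ^ M * Q) = 0 := by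
    have h1 : (X - C l) ^ M * Q = (X - C l) ^ finrank K V * ((X - C l) ^ k * Q) := by
      rw [hM, pow_add]
      ring
    rw [h1, ← hQ1, map_mul, map_mul, minpoly.aeval, mul_zero, mul_zero]
  have hp1 : ∀ w ∈ A.maxGenEigenspace l, aeval A (v * Q) w = w := by
    intro w hw
    have h1 : v * Q = 1 - u * (X - C l) ^ M := by
      rw [← huv]
      ring
    rw [h1, map_sub, map_one, map_mul, hae, LinearMap.sub_apply, Module.End.mul_apply,
      (hE w).1 hw, map_zero, sub_zero]
    rfl
  have hp2 : ∀ w, aeval A (v * Q) w ∈ A.maxGenEigenspace l := by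
    intro w
    rw [hE, ← Module.End.mul_apply, ← hae, ← map_mul]
    have h1 : (X - C l) ^ M * (v * Q) = v * ((X - C l) ^ M * Q) := by ring
    rw [h1, map_mul, hkill, mul_zero]
    rfl
  have hpX : aeval A (v * Q) = A * aeval A (v * Q') := by
    rw [hQ']
    have h1 : v * (X * Q') = X * (v * Q') := by ring
    rw [h1, map_mul, aeval_X]
  have hnp : n * aeval A (v * Q) = 0 := by
    rw [hpX, hA, ← mul_assoc, ← mul_assoc, hn2, zero_mul, zero_mul]
  refine ⟨v * Q, ?_, ?_, ?_, hp1⟩
  · rw [hQ']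
    exact ⟨v * Q', by ring⟩
  · calc (aeval A (v * Q) * n) * (aeval A (v * Q) * n) =
        aeval A (v * Q) * (n * aeval A (v * Q)) * n := by noncomm_ring
      _ = 0 := by rw [hnp, mul_zero, zero_mul]
  · apply le_antisymm
    · rintro _ ⟨w, rfl⟩
      exact hp2 _
    · intro w hw
      refine ⟨n' (aeval A (v * Q') w), ?_⟩
      have h1 : w = n (n' (aeval A (v * Q') w)) := by
        have h2 := hp1 w hw
        rw [hpX, Module.End.mul_apply] at h2
        rw [← Module.End.mul_apply n n', ← hA]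
        exact h2.symm
      rw [Module.End.mul_apply, ← h1]
      exact hp1 w hw

variable {G : Type} [Group G] (r : Representation K G V)

/-- The words belong to the algebra generated by the conjugates of `n`. -/
theorem word_alg {n n' : Module.End K V} (hn2 : n * n = 0) (hn2' : n' * n' = 0)
    (hg : ∃ g, r g = 1 + n') (hg2 : ∃ g, r g = 1 - n') (k : ℕ) : n * (n' * n) ^ k ∈ Alg r n := by
  have h0 : n ∈ Alg r n := by
    refine Algebra.subset_adjoin ⟨1, ?_⟩
    simp
  have hc : ∀ (g : G) (x : Module.End K V), r g = 1 + x → x * x = 0 → r g⁻¹ = 1 - x := by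
    intro g x hx hx2
    have h1 : (1 - x) * r g = 1 := by
      rw [hx]
      have : (1 - x) * (1 + x) = 1 - x * x := by noncomm_ring
      rw [this, hx2, sub_zero]
    calc r g⁻¹ = ((1 - x) * r g) * r g⁻¹ := by rw [h1, one_mul]
      _ = 1 - x := by rw [mul_assoc, ← map_mul, mul_inv_cancel, map_one, mul_one]
  have h1 : (1 + n') * n * (1 - n') ∈ Alg r n := by
    obtain ⟨g, hg⟩ := hg
    have h2 := hc g n' hg hn2'
    rw [← hg, ← h2]
    exact conj_mem r n g n h0
  have h2 : (1 - n') * n * (1 + n') ∈ Alg r n := by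
    obtain ⟨g, hg⟩ := hg2
    have h2 := hc g (-n') (by rw [hg]; abel) (by rw [neg_mul_neg, hn2'])
    have h3 := conj_mem r n g n h0
    rw [h2, hg, sub_neg_eq_add] at h3
    exact h3
  have h3 : n' * n - n * n' ∈ Alg r n := by
    have h4 := Subalgebra.sub_mem _ h1 h2
    have h5 : (1 + n') * n * (1 - n') - (1 - n') * n * (1 + n') = (2 : K) • (n' * n - n * n') := by
      have h6 : (1 + n') * n * (1 - n') - (1 - n') * n * (1 + n') =
          (n' * n - n * n') + (n' * n - n * n') := by noncomm_ring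
      rw [h6]
      module
    rw [h5] at h4
    have h6 := Subalgebra.smul_mem _ h4 (1 / 2 : K)
    rwa [smul_smul, show (1 / 2 * 2 : K) = 1 by norm_num, one_smul] at h6
  have h4 : n' * n * n' ∈ Alg r n := by
    have h5 : n' * n * n' = n + (n' * n - n * n') - (1 + n') * n * (1 - n') := by noncomm_ring
    rw [h5]
    exact Subalgebra.sub_mem _ (Subalgebra.add_mem _ h0 h3) h1
  have h5 : n * n' * n ∈ Alg r n := by
    have h6 : n * n' * n = n * (n' * n - n * n') := by
      have h7 : n * (n' * n - n * n') = n * n' * n - (n * n) * n' := by noncomm_ring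
      rw [h7, hn2, zero_mul, sub_zero]
    rw [h6]
    exact Subalgebra.mul_mem _ h0 h3
  induction k using Nat.twoStepInduction with
  | zero => simpa using h0
  | one =>
    rw [pow_one, ← mul_assoc]
    exact h5
  | more k ih _ =>
    have h6 : n * (n' * n) ^ (k + 2) = n * (n' * n) ^ k * ((n' * n * n') * n) := by
      rw [pow_add, pow_two]
      simp only [mul_assoc]
    rw [h6]
    exact Subalgebra.mul_mem _ ih (Subalgebra.mul_mem _ h4 h0)

theorem poly_alg {n n' : Module.End K V} (hn2 : n * n = 0) (hn2' : n' * n' = 0)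
    (hg : ∃ g, r g = 1 + n') (hg2 : ∃ g, r g = 1 - n') (p : K[X]) :
    aeval (n * n') p * n ∈ Alg r n := by
  rw [Polynomial.aeval_eq_sum_range, Finset.sum_mul]
  refine Subalgebra.sum_mem _ fun i _ => ?_
  rw [smul_mul_assoc, mul_pow_mul]
  exact Subalgebra.smul_mem _ (word_alg r hn2 hn2' hg hg2 i) _

end

end Pool.Agent.Y126.OT
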