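import Mathlib
import Pool.Agent.Y126.OT.Words
import Pool.Agent.W363.OT.Cart
import Pool.Agent.W806.OT.DIV
import Pool.Agent.W261.OT.NoOrth

/-!
# Lie algebras with a square-zero element whose defects have no common factor
-/

set_option linter.unusedSectionVars false

namespace Pool.Agent.Y126.OT

open Module Pool.Agent.W528.Odd Pool.Agent.W261.OT.Comm

noncomputable section

/-- If the ranks of the elements of the algebra generated by the conjugates of `N` have no common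
factor, these conjugates act irreducibly. -/
theorem conjIrr_of {K : Type} [Field K] {V : Type} [AddCommGroup V]
    [Module K V] [FiniteDimensional K V] {G : Type} [Group G] (r : Representation K G V)
    (hr : SIrr r) (N : Module.End K V)
    (hcop : ∀ m : ℕ, (∀ b ∈ Alg r N, m ∣ finrank K (LinearMap.range b)) → m = 1) :
    ConjIrr r N := by
  intro W hW
  rcases subsingleton_or_nontrivial V with hV | hV
  · left
    exact Subsingleton.elim _ _
  have hart : IsArtinian (Alg r N) V := isArtinian_of_tower K inferInstance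
  have hnoe : IsNoetherian (Alg r N) V := isNoetherian_of_tower K inferInstance
  have hss : IsSemisimpleModule (Alg r N) V := semis r N hr
  have hiso := isotypic r N hr
  obtain ⟨n, hn0, S, hS, ⟨e⟩⟩ := hiso.linearEquiv_fun
  have hSf : FiniteDimensional K S := FiniteDimensional.finiteDimensional_submodule
    (S.restrictScalars K)
  let eK : V ≃ₗ[K] (Fin n → S) := e.restrictScalars K
  have h5 : n = 1 := by
    refine hcop n fun b hb => ?_
    let b' : Alg r N := ⟨b, hb⟩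
    let f : S →ₗ[K] S :=
      { toFun := fun v => b' • v
        map_add' := by intro a b; exact smul_add _ _ _
        map_smul' := by
          intro c a
          rw [RingHom.id_apply]
          apply Subtype.ext
          change b (c • (a : V)) = c • b (a : V)
          exact map_smul _ _ _ }
    let F : (Fin n → S) →ₗ[K] (Fin n → S) := eK.toLinearMap ∘ₗ b ∘ₗ eK.symm.toLinearMap
    have hF : ∀ v i, F v i = f (v i) := by
      intro v i
      have h1 : e (b' • (e.symm v)) = b' • v := by rw [map_smul, LinearEquiv.apply_symm_apply]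
      exact congrFun h1 i
    have h1 := rank_pi (K := K) (S := S) n f F hF
    have h2 : finrank K (LinearMap.range F) = finrank K (LinearMap.range b) := by
      have h3 : LinearMap.range F = (LinearMap.range b).map eK.toLinearMap := by
        change LinearMap.range (eK.toLinearMap ∘ₗ b ∘ₗ eK.symm.toLinearMap) = _
        rw [LinearMap.range_comp, LinearMap.range_comp_of_range_eq_top]
        exact LinearEquiv.range _
      rw [h3]
      exact LinearEquiv.finrank_map_eq eK _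
    exact ⟨_, h2.symm.trans h1⟩
  subst h5
  let e1 : (Fin 1 → S) ≃ₗ[Alg r N] S := LinearEquiv.funUnique (Fin 1) (Alg r N) S
  let e2 : V ≃ₗ[Alg r N] S := e.trans e1
  have hsimp : IsSimpleModule (Alg r N) V :=
    IsSimpleModule.congr (R := Alg r N) (M := V) (N := S) e2
  have hst : ∀ b ∈ Alg r N, ∀ v ∈ W, b v ∈ W := by
    intro b hb
    unfold Alg at hb
    induction hb using Algebra.adjoin_induction with
    | mem x hx =>
      obtain ⟨g, rfl⟩ := hx
      intro v hv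
      exact hW g v hv
    | algebraMap c =>
      intro v hv
      change c • v ∈ W
      exact W.smul_mem c hv
    | add x y _ _ hx hy =>
      intro v hv
      exact W.add_mem (hx v hv) (hy v hv)
    | mul x y _ _ hx hy =>
      intro v hv
      exact hx _ (hy v hv)
  let W' : Submodule (Alg r N) V :=
    { carrier := W
      zero_mem' := W.zero_mem
      add_mem' := fun ha hb => W.add_mem ha hb
      smul_mem' := fun b v hv => hst b b.2 v hv }
  have hW' : ∀ v, v ∈ W' ↔ v ∈ W := fun v => Iff.rfl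
  rcases eq_bot_or_eq_top W' with h | h
  · left
    ext v
    rw [← hW', h]
    rfl
  · right
    ext v
    rw [← hW', h]
    simp

variable {K : Type} [Field K] [CharZero K] {V : Type} [AddCommGroup V] [Module K V]
  [FiniteDimensional K V] {𝔥 : Submodule K (Module.End K V)} {Γ : Type} [Group Γ]
  (ρ : Representation K Γ V)

/-- The operators of trace zero. -/
def sl0 (𝔥 : Submodule K (Module.End K V)) : Submodule K (Module.End K V) :=
  𝔥 ⊓ LinearMap.ker (LinearMap.trace K V)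

theorem mem_sl0 {x : Module.End K V} : x ∈ sl0 𝔥 ↔ x ∈ 𝔥 ∧ LinearMap.trace K V x = 0 := Iff.rfl

theorem sq_mem_sl0 {x : Module.End K V} (hx : x ∈ 𝔥) (h2 : x * x = 0) : x ∈ sl0 𝔥 :=
  ⟨hx, trace_sq_zero h2⟩

theorem setup_sl0 (hirr : SIrr ρ) (hbr : ∀ X ∈ 𝔥, ∀ Y ∈ 𝔥, X * Y - Y * X ∈ 𝔥)
    (hconj : ∀ s : Γ, ∀ X ∈ 𝔥, ρ s * X * ρ s⁻¹ ∈ 𝔥) : Setup (rN (sl0 𝔥)) (sl0 𝔥) := by
  have hbr' : ∀ X ∈ sl0 𝔥, ∀ Y ∈ sl0 𝔥, X * Y - Y * X ∈ sl0 𝔥 := by
    intro X hX Y hY
    refine ⟨hbr X hX.1 Y hY.1, ?_⟩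
    change LinearMap.trace K V _ = 0
    rw [map_sub, LinearMap.trace_mul_comm, sub_self]
  have hconj' : ∀ s : Γ, ∀ X ∈ sl0 𝔥, ρ s * X * ρ s⁻¹ ∈ sl0 𝔥 := by
    intro s X hX
    refine ⟨hconj s X hX.1, ?_⟩
    change LinearMap.trace K V _ = 0
    rw [LinearMap.trace_mul_comm, ← mul_assoc, ← map_mul, inv_mul_cancel, map_one, one_mul]
    exact hX.2
  refine ⟨sIrr_rN ρ hirr hconj', hbr', fun g X hX => g.2.1 X hX, ?_, fun X hX => hX.2⟩
  intro n hn hn2
  refine ⟨⟨un1 hn2, fun x hx => ?_, fun x hx => ?_⟩, rfl⟩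
  · have h1 : (1 + n) * x * (1 - n) = x + (n * x - x * n) - n * x * n := by noncomm_ring
    change (1 + n) * x * (1 - n) ∈ sl0 𝔥
    rw [h1]
    exact (sl0 𝔥).sub_mem ((sl0 𝔥).add_mem hx (hbr' _ hn _ hx)) (sq_mul_mem hbr' hn hn2 hx)
  · have h1 : (1 - n) * x * (1 + n) = x - (n * x - x * n) - n * x * n := by noncomm_ring
    change (1 - n) * x * (1 + n) ∈ sl0 𝔥
    rw [h1]
    exact (sl0 𝔥).sub_mem ((sl0 𝔥).sub_mem hx (hbr' _ hn _ hx)) (sq_mul_mem hbr' hn hn2 hx)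

/-- `d` is a defect of `N` in `𝔥`: the rank of `N`, or the multiplicity of a nonzero eigenvalue
of `N N'` for a square-zero element `N'` of `𝔥`. -/
def Defect (𝔥 : Submodule K (Module.End K V)) (N : Module.End K V) (d : ℕ) : Prop :=
  d = rk N ∨ ∃ N' ∈ 𝔥, N' * N' = 0 ∧ ∃ l : K, l ≠ 0 ∧ d = finrank K ((N * N').maxGenEigenspace l)

theorem defect_elt [IsAlgClosed K] (hirr : SIrr ρ) (hbr : ∀ X ∈ 𝔥, ∀ Y ∈ 𝔥, X * Y - Y * X ∈ 𝔥)
    (hconj : ∀ s : Γ, ∀ X ∈ 𝔥, ρ s * X * ρ s⁻¹ ∈ 𝔥) {N : Module.End K V} (hN : N ∈ 𝔥)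
    (hN2 : N * N = 0) {d : ℕ} (hd : Defect 𝔥 N d) :
    ∃ n ∈ 𝔥, n * n = 0 ∧ rk n = d ∧ n ∈ Alg (rN (sl0 𝔥)) N := by
  rcases hd with rfl | ⟨N', hN', hN2', l, hl, rfl⟩
  · refine ⟨N, hN, hN2, rfl, Algebra.subset_adjoin ⟨1, ?_⟩⟩
    simp
  · obtain ⟨p, -, hp2, hp3, -⟩ := exists_poly (n' := N') hN2 hl
    refine ⟨_, poly_mem hbr hN hN2 hN' hN2' p, hp2, by rw [rk, hp3], ?_⟩
    have hS := setup_sl0 ρ hirr hbr hconj
    have h1 := hS.unip N' (sq_mem_sl0 hN' hN2') hN2'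
    have h2 := hS.unip (-N') (sq_mem_sl0 (𝔥.neg_mem hN') (by rw [neg_mul_neg, hN2']))
      (by rw [neg_mul_neg, hN2'])
    refine poly_alg _ hN2 hN2' h1 ?_ p
    obtain ⟨g, hg⟩ := h2
    exact ⟨g, by rw [hg]; abel⟩

/-- **Extremal elements have rank one.**  Let `𝔥` be a Lie algebra of operators, stable under a
group all of whose subgroups of finite index act irreducibly.  If `𝔥` contains a square-zero
element `N` whose defects have no common prime factor, all square-zero elements `e ≠ 0` with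
`e x e ∈ K e` for all `x` in `𝔥` have rank one. -/
theorem extremal_rank_one [IsAlgClosed K] (hirr : SIrr ρ)
    (hbr : ∀ X ∈ 𝔥, ∀ Y ∈ 𝔥, X * Y - Y * X ∈ 𝔥)
    (hconj : ∀ s : Γ, ∀ X ∈ 𝔥, ρ s * X * ρ s⁻¹ ∈ 𝔥) {N : Module.End K V} (hN : N ∈ 𝔥)
    (hN2 : N * N = 0) (hd : ∀ p : ℕ, p.Prime → ∃ d, Defect 𝔥 N d ∧ ¬ p ∣ d)
    {e : Module.End K V} (he : e ∈ 𝔥) (he2 : e * e = 0) (he0 : e ≠ 0)
    (hext : ∀ x ∈ 𝔥, ∃ c : K, e * x * e = c • e) : rk e = 1 := by
  have hS := setup_sl0 ρ hirr hbr hconj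
  have hcop : ∀ m : ℕ, (∀ b ∈ Alg (rN (sl0 𝔥)) N, m ∣ finrank K (LinearMap.range b)) → m = 1 := by
    intro m hm
    by_contra h1
    obtain ⟨p, hp, hpm⟩ := Nat.exists_prime_and_dvd h1
    obtain ⟨d, hd, hpd⟩ := hd p hp
    obtain ⟨n, -, -, hn, hnA⟩ := defect_elt ρ hirr hbr hconj hN hN2 hd
    apply hpd
    rw [← hn]
    exact hpm.trans (hm n hnA)
  have hCN : ConjIrr (rN (sl0 𝔥)) N := conjIrr_of _ hS.irr N hcop
  have hNsl := sq_mem_sl0 hN hN2
  have hesl := sq_mem_sl0 he he2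
  have hNO : NoOrthOf (rN (sl0 𝔥)) (sl0 𝔥) e :=
    Pool.Agent.W261.OT.NoOrth.main K V (Nz (sl0 𝔥)) (rN (sl0 𝔥)) (sl0 𝔥) hS
      (fun 𝔞 h𝔞 h1 h2 h3 => Pool.Agent.W363.OT.Cart.main K V (Nz (sl0 𝔥)) (rN (sl0 𝔥)) hS.irr
        𝔞 h1 h2 (fun x hx => hS.tr x (h𝔞 hx)) h3) N hNsl hN2 hCN e hesl he2 he0
  have hdvd := Pool.Agent.W806.OT.DIV.main K V (Nz (sl0 𝔥)) (rN (sl0 𝔥)) (sl0 𝔥) hS e hesl he2
    (fun x hx => hext x hx.1) hNO
  by_contra h1
  obtain ⟨p, hp, hpm⟩ := Nat.exists_prime_and_dvd h1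
  obtain ⟨d, hd, hpd⟩ := hd p hp
  obtain ⟨n, hn, hn2, hnd, -⟩ := defect_elt ρ hirr hbr hconj hN hN2 hd
  apply hpd
  rw [← hnd]
  exact hpm.trans (hdvd n (sq_mem_sl0 hn hn2) hn2)

/-- A rank one element makes all extremal elements of rank one. -/
theorem extremal_rank_one' [IsAlgClosed K] (hirr : SIrr ρ)
    (hbr : ∀ X ∈ 𝔥, ∀ Y ∈ 𝔥, X * Y - Y * X ∈ 𝔥)
    (hconj : ∀ s : Γ, ∀ X ∈ 𝔥, ρ s * X * ρ s⁻¹ ∈ 𝔥) {N : Module.End K V} (hN : N ∈ 𝔥)
    (hN2 : N * N = 0) (hr : rk N = 1)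
    {e : Module.End K V} (he : e ∈ 𝔥) (he2 : e * e = 0) (he0 : e ≠ 0)
    (hext : ∀ x ∈ 𝔥, ∃ c : K, e * x * e = c • e) : rk e = 1 := by
  refine extremal_rank_one ρ hirr hbr hconj hN hN2 ?_ he he2 he0 hext
  intro p hp
  refine ⟨1, Or.inl hr.symm, ?_⟩
  intro h
  exact hp.one_lt.ne' (Nat.dvd_one.1 h)

end

end Pool.Agent.Y126.OT
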