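import Mathlib
import Pool.Agent.Y126.OT.Ext

/-!
# Lie algebras with square-zero elements whose ranks have no common factor
-/

set_option linter.unusedSectionVars false

namespace Pool.Agent.Y126.OT

open Module Pool.Agent.W528.Odd Pool.Agent.W261.OT.Comm

noncomputable section

variable {K : Type} [Field K] [CharZero K] {V : Type} [AddCommGroup V] [Module K V]
  [FiniteDimensional K V] {𝔥 : Submodule K (Module.End K V)} {Γ : Type} [Group Γ]
  (ρ : Representation K Γ V)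

/-- **Extremal elements have rank one.**  Let `𝔥` be a Lie algebra of operators, stable under a
group all of whose subgroups of finite index act irreducibly, and `N` a square-zero element.  If the
ranks of the square-zero elements in `𝔥` and the algebra generated by the conjugates of `N` have no
common prime factor, all square-zero elements `e ≠ 0` with `e x e ∈ K e` for all `x` in `𝔥` have
rank one. -/
theorem extremal_rank_one_gen [IsAlgClosed K] (hirr : SIrr ρ)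
    (hbr : ∀ X ∈ 𝔥, ∀ Y ∈ 𝔥, X * Y - Y * X ∈ 𝔥)
    (hconj : ∀ s : Γ, ∀ X ∈ 𝔥, ρ s * X * ρ s⁻¹ ∈ 𝔥) {N : Module.End K V} (hN : N ∈ 𝔥)
    (hN2 : N * N = 0) (hd : ∀ p : ℕ, p.Prime → ∃ n ∈ 𝔥, n * n = 0 ∧
      n ∈ Alg (rN (sl0 𝔥)) N ∧ ¬ p ∣ rk n)
    {e : Module.End K V} (he : e ∈ 𝔥) (he2 : e * e = 0) (he0 : e ≠ 0)
    (hext : ∀ x ∈ 𝔥, ∃ c : K, e * x * e = c • e) : rk e = 1 := by
  have hS := setup_sl0 ρ hirr hbr hconj
  have hcop : ∀ m : ℕ, (∀ b ∈ Alg (rN (sl0 𝔥)) N, m ∣ finrank K (LinearMap.range b)) → m = 1 := by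
    intro m hm
    by_contra h1
    obtain ⟨p, hp, hpm⟩ := Nat.exists_prime_and_dvd h1
    obtain ⟨n, -, -, hnA, hpd⟩ := hd p hp
    exact hpd (hpm.trans (hm n hnA))
  have hCN : ConjIrr (rN (sl0 𝔥)) N := conjIrr_of _ hS.irr N hcop
  have hNsl := sq_mem_sl0 hN hN2
  have hesl := sq_mem_sl0 he he2
  have hNO : NoOrthOf (rN (sl0 𝔥)) (sl0 𝔥) e :=
    Pool.Agent.W261.OT.NoOrth.main K V (Nz (sl0 𝔥)) (rN (sl0 𝔥)) (sl0 𝔥) hS
      (fun 𝔞 h𝔞 h1 h2 h3 => Pool.Agent.W363.OT.Cart.main K V (Nz (sl0 𝔥)) (rN (sl0 𝔥)) hS.irr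
        𝔞 h1 h2 (fun x hx => hS.tr x (h𝔞 hx)) h3) N hNsl hN2 hCN e hesl he2 he0
  have hdvd := Pool.Agent.W806.OT.DIV.main K V (Nz (sl0 𝔥)) (rN (sl0 𝔥)) (sl0 𝔥) hS e hesl he2
    (fun x hx => hext x hx.1) hNO
  by_contra h1
  obtain ⟨p, hp, hpm⟩ := Nat.exists_prime_and_dvd h1
  obtain ⟨n, hn, hn2, -, hpd⟩ := hd p hp
  exact hpd (hpm.trans (hdvd n (sq_mem_sl0 hn hn2) hn2))

end

end Pool.Agent.Y126.OT
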