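import Mathlib
import Pool.Agent.Y126.OT.Gen
import Pool.Agent.W528.Odd.Simple

/-!
# Pairs of operators with square one fourth

For operators `x`, `y` with `x ^ 2 = y ^ 2 = 1 / 4` in a Lie algebra the operator `x y + y x`
commutes with `x` and `y`.  For each eigenvalue different from `1 / 2` and `- 1 / 2` of algebraic
multiplicity `2 d` the Lie algebra contains a square-zero element of rank `d`.
-/

set_option linter.unusedSectionVars false

namespace Pool.Agent.Y126.OT

open Module Pool.Agent.W528.Odd Polynomial Pool.Agent.W261.OT.Comm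

noncomputable section

variable {K : Type} [Field K] [CharZero K] {V : Type} [AddCommGroup V] [Module K V]

/-- The projection on the eigenspace `1 / 2`. -/
def e1 (x : Module.End K V) : Module.End K V := (1 / 2 : K) • 1 + x

/-- The projection on the eigenspace `- 1 / 2`. -/
def e0 (x : Module.End K V) : Module.End K V := (1 / 2 : K) • 1 - x

theorem e1_add_e0 (x : Module.End K V) : e1 x + e0 x = 1 := by
  unfold e1 e0
  module

theorem x_eq (x : Module.End K V) : x = (1 / 2 : K) • (e1 x - e0 x) := by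
  unfold e1 e0
  module

section sq

variable {x : Module.End K V} (hx : x * x = (1 / 4 : K) • 1)

include hx in
theorem e1_mul_e1 : e1 x * e1 x = e1 x := by
  unfold e1
  rw [mul_add, add_mul, add_mul, hx, smul_mul_assoc, mul_smul_comm, mul_smul_comm, one_mul,
    mul_one, smul_mul_assoc, one_mul]
  module

include hx in
theorem e0_mul_e0 : e0 x * e0 x = e0 x := by
  unfold e0
  rw [mul_sub, sub_mul, sub_mul, hx, smul_mul_assoc, mul_smul_comm, mul_smul_comm, one_mul,
    mul_one, smul_mul_assoc, one_mul]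
  module

include hx in
theorem e1_mul_e0 : e1 x * e0 x = 0 := by
  have h : e0 x = 1 - e1 x := by rw [← e1_add_e0 x]; abel
  rw [h, mul_sub, mul_one, e1_mul_e1 hx, sub_self]

include hx in
theorem e0_mul_e1 : e0 x * e1 x = 0 := by
  have h : e0 x = 1 - e1 x := by rw [← e1_add_e0 x]; abel
  rw [h, sub_mul, one_mul, e1_mul_e1 hx, sub_self]

end sq

/-- The component of degree one. -/
def yp (x y : Module.End K V) : Module.End K V := e1 x * y * e0 x

/-- The component of degree minus one. -/
def ym (x y : Module.End K V) : Module.End K V := e0 x * y * e1 x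

/-- The component of degree zero. -/
def y0 (x y : Module.End K V) : Module.End K V := e1 x * y * e1 x + e0 x * y * e0 x

theorem y_eq (x y : Module.End K V) : y = y0 x y + yp x y + ym x y := by
  have h : y = (e1 x + e0 x) * y * (e1 x + e0 x) := by rw [e1_add_e0, one_mul, mul_one]
  conv_lhs => rw [h]
  unfold y0 yp ym
  noncomm_ring

section pair

variable {x y : Module.End K V} (hx : x * x = (1 / 4 : K) • 1)

include hx in
theorem br_eq : x * y - y * x = yp x y - ym x y := by
  have h1 : e1 x = (1 / 2 : K) • 1 + x := rfl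
  have h2 : e0 x = (1 / 2 : K) • 1 - x := rfl
  unfold yp ym
  rw [h1, h2]
  simp only [mul_sub, mul_add, add_mul, sub_mul, smul_mul_assoc, mul_smul_comm, one_mul, mul_one,
    smul_sub, smul_add, smul_smul]
  module

include hx in
theorem br_br : x * (x * y - y * x) - (x * y - y * x) * x = yp x y + ym x y := by
  have h1 : e1 x = (1 / 2 : K) • 1 + x := rfl
  have h2 : e0 x = (1 / 2 : K) • 1 - x := rfl
  have h3 : x * (x * y - y * x) - (x * y - y * x) * x =
      (x * x) * y - (2 : K) • (x * y * x) + y * (x * x) := by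
    rw [two_smul]
    noncomm_ring
  unfold yp ym
  rw [h3, hx, h1, h2]
  simp only [mul_sub, mul_add, add_mul, sub_mul, smul_mul_assoc, mul_smul_comm, one_mul, mul_one,
    smul_sub, smul_add, smul_smul]
  module

variable {𝔥 : Submodule K (Module.End K V)} (hbr : ∀ X ∈ 𝔥, ∀ Y ∈ 𝔥, X * Y - Y * X ∈ 𝔥)
  (hxm : x ∈ 𝔥) (hym : y ∈ 𝔥)

include hx hbr hxm hym in
theorem yp_mem : yp x y ∈ 𝔥 := by
  have h1 := hbr x hxm y hym
  have h2 := hbr x hxm _ h1
  rw [br_br hx] at h2
  rw [br_eq hx] at h1
  have h3 : yp x y = (1 / 2 : K) • ((yp x y - ym x y) + (yp x y + ym x y)) := by module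
  rw [h3]
  exact 𝔥.smul_mem _ (𝔥.add_mem h1 h2)

include hx hbr hxm hym in
theorem ym_mem : ym x y ∈ 𝔥 := by
  have h1 := hbr x hxm y hym
  have h2 := hbr x hxm _ h1
  rw [br_br hx] at h2
  rw [br_eq hx] at h1
  have h3 : ym x y = (1 / 2 : K) • ((yp x y + ym x y) - (yp x y - ym x y)) := by module
  rw [h3]
  exact 𝔥.smul_mem _ (𝔥.sub_mem h2 h1)

include hx hbr hxm hym in
theorem y0_mem : y0 x y ∈ 𝔥 := by
  have h3 : y0 x y = y - yp x y - ym x y := by
    conv_rhs => rw [y_eq x y]
    have h1 : yp x (y0 x y + yp x y + ym x y) = yp x y := by rw [← y_eq]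
    have h2 : ym x (y0 x y + yp x y + ym x y) = ym x y := by rw [← y_eq]
    rw [h1, h2]
    abel
  rw [h3]
  exact 𝔥.sub_mem (𝔥.sub_mem hym (yp_mem hx hbr hxm hym)) (ym_mem hx hbr hxm hym)

/-- The anticommutator. -/
def TT (x y : Module.End K V) : Module.End K V := x * y + y * x

include hx in
theorem TT_comm_x : TT x y * x = x * TT x y := by
  unfold TT
  have h1 : (x * y + y * x) * x = x * y * x + y * (x * x) := by noncomm_ring
  have h2 : x * (x * y + y * x) = (x * x) * y + x * y * x := by noncomm_ring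
  rw [h1, h2, hx]
  simp only [mul_smul_comm, smul_mul_assoc, mul_one, one_mul]
  abel

theorem TT_symm (x y : Module.End K V) : TT x y = TT y x := by
  unfold TT
  abel

variable (hy : y * y = (1 / 4 : K) • 1)

include hy in
theorem TT_comm_y : TT x y * y = y * TT x y := by
  rw [TT_symm]
  exact TT_comm_x hy

include hx in
theorem TT_comm_e1 : TT x y * e1 x = e1 x * TT x y := by
  unfold e1
  rw [mul_add, add_mul, TT_comm_x hx, mul_smul_comm, smul_mul_assoc, mul_one, one_mul]

include hx in
theorem TT_comm_e0 : TT x y * e0 x = e0 x * TT x y := by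
  unfold e0
  rw [mul_sub, sub_mul, TT_comm_x hx, mul_smul_comm, smul_mul_assoc, mul_one, one_mul]

include hx in
theorem TT_e1 : TT x y * e1 x = e1 x * y * e1 x := by
  have h1 : TT x y * e1 x = e1 x * TT x y * e1 x := by
    rw [← TT_comm_e1 hx, mul_assoc, e1_mul_e1 hx]
  have h2 : x * e1 x = (1 / 2 : K) • e1 x := by
    unfold e1
    rw [mul_add, hx]
    simp only [mul_smul_comm, mul_one]
    module
  have h3 : e1 x * x = (1 / 2 : K) • e1 x := by
    unfold e1
    rw [add_mul, hx]
    simp only [smul_mul_assoc, one_mul]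
    module
  rw [h1]
  unfold TT
  have h4 : e1 x * (x * y + y * x) * e1 x = (e1 x * x) * y * e1 x + e1 x * y * (x * e1 x) := by
    noncomm_ring
  rw [h4, h2, h3]
  simp only [smul_mul_assoc, mul_smul_comm]
  module

include hx hy in
theorem br_y0 : y0 x y * yp x y - yp x y * y0 x y = (2 : K) • (TT x y * yp x y) := by
  have h11 := e1_mul_e1 hx
  have h00 := e0_mul_e0 hx
  have h10 := e1_mul_e0 hx
  have h01 := e0_mul_e1 hx
  -- `e1 y² e0 = 0`
  have hyy : e1 x * y * e1 x * y * e0 x + e1 x * y * e0 x * y * e0 x = 0 := by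
    have h1 : e1 x * y * e1 x * y * e0 x + e1 x * y * e0 x * y * e0 x =
        e1 x * y * (e1 x + e0 x) * y * e0 x := by noncomm_ring
    have h2 : e1 x * y * 1 * y * e0 x = e1 x * (y * y) * e0 x := by noncomm_ring
    rw [h1, e1_add_e0, h2, hy, mul_smul_comm, mul_one, smul_mul_assoc, h10, smul_zero]
  have hT : TT x y * yp x y = e1 x * y * e1 x * y * e0 x := by
    have h1 : TT x y * yp x y = (TT x y * e1 x) * y * e0 x := by
      unfold yp
      noncomm_ring
    rw [h1, TT_e1 hx]
  have hA : y0 x y * yp x y = e1 x * y * e1 x * y * e0 x := by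
    have h1 : y0 x y * yp x y = e1 x * y * (e1 x * e1 x) * y * e0 x +
        e0 x * y * (e0 x * e1 x) * y * e0 x := by
      unfold y0 yp
      noncomm_ring
    rw [h1, h11, h01, mul_zero, zero_mul, zero_mul, add_zero]
  have hB : yp x y * y0 x y = e1 x * y * e0 x * y * e0 x := by
    have h1 : yp x y * y0 x y = e1 x * y * (e0 x * e1 x) * y * e1 x +
        e1 x * y * (e0 x * e0 x) * y * e0 x := by
      unfold y0 yp
      noncomm_ring
    rw [h1, h00, h01, mul_zero, zero_mul, zero_mul, zero_add]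
  rw [hA, hB, hT, two_smul, sub_eq_iff_eq_add]
  have h5 := eq_neg_of_add_eq_zero_right hyy
  rw [h5]
  abel

include hx hy in
theorem TT_comm_y0 : TT x y * y0 x y = y0 x y * TT x y := by
  have h1 := TT_comm_e1 (y := y) hx
  have h2 := TT_comm_e0 (y := y) hx
  have h3 := TT_comm_y (x := x) hy
  unfold y0
  have h4 : TT x y * (e1 x * y * e1 x + e0 x * y * e0 x) =
      (TT x y * e1 x) * y * e1 x + (TT x y * e0 x) * y * e0 x := by noncomm_ring
  rw [h4, h1, h2]
  have h5 : e1 x * TT x y * y * e1 x + e0 x * TT x y * y * e0 x =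
      e1 x * (TT x y * y) * e1 x + e0 x * (TT x y * y) * e0 x := by noncomm_ring
  rw [h5, h3]
  have h6 : e1 x * (y * TT x y) * e1 x + e0 x * (y * TT x y) * e0 x =
      e1 x * y * (TT x y * e1 x) + e0 x * y * (TT x y * e0 x) := by noncomm_ring
  rw [h6, h1, h2]
  noncomm_ring

include hx hy hbr hxm hym in
theorem TT_pow_mem (k : ℕ) : TT x y ^ k * yp x y ∈ 𝔥 := by
  induction k with
  | zero =>
    rw [pow_zero, one_mul]
    exact yp_mem hx hbr hxm hym
  | succ k ih =>
    have h1 := hbr _ (y0_mem hx hbr hxm hym) _ ih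
    have hc : y0 x y * TT x y ^ k = TT x y ^ k * y0 x y :=
      ((Commute.pow_right (show Commute (y0 x y) (TT x y) from (TT_comm_y0 hx hy).symm) k))
    have h2 : y0 x y * (TT x y ^ k * yp x y) - TT x y ^ k * yp x y * y0 x y =
        (2 : K) • (TT x y ^ (k + 1) * yp x y) := by
      rw [← mul_assoc, hc, mul_assoc, mul_assoc, ← mul_sub, br_y0 hx hy, mul_smul_comm, pow_succ,
        mul_assoc]
    rw [h2] at h1
    exact (Submodule.smul_mem_iff _ (by norm_num : (2 : K) ≠ 0)).1 h1

include hx hy hbr hxm hym in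
theorem TT_poly_mem (p : K[X]) : aeval (TT x y) p * yp x y ∈ 𝔥 := by
  rw [Polynomial.aeval_eq_sum_range, Finset.sum_mul]
  refine Submodule.sum_mem _ fun i _ => ?_
  rw [smul_mul_assoc]
  exact 𝔥.smul_mem _ (TT_pow_mem hx hbr hxm hym hy i)

theorem aeval_comm {T z : Module.End K V} (h : T * z = z * T) (p : K[X]) :
    aeval T p * z = z * aeval T p := by
  have h1 : Commute T z := h
  rw [Polynomial.aeval_eq_sum_range, Finset.sum_mul, Finset.mul_sum]
  refine Finset.sum_congr rfl fun i _ => ?_
  rw [smul_mul_assoc, mul_smul_comm, (h1.pow_left i).eq]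

include hx in
theorem poly_sq (p : K[X]) : (aeval (TT x y) p * yp x y) * (aeval (TT x y) p * yp x y) = 0 := by
  have h1 : e0 x * aeval (TT x y) p = aeval (TT x y) p * e0 x :=
    (aeval_comm (TT_comm_e0 hx) p).symm
  have h2 : (aeval (TT x y) p * yp x y) * (aeval (TT x y) p * yp x y) =
      aeval (TT x y) p * e1 x * y * (e0 x * aeval (TT x y) p) * e1 x * y * e0 x := by
    unfold yp
    noncomm_ring
  have h3 : aeval (TT x y) p * e1 x * y * (aeval (TT x y) p * e0 x) * e1 x * y * e0 x =
      aeval (TT x y) p * e1 x * y * aeval (TT x y) p * (e0 x * e1 x) * y * e0 x := by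
    noncomm_ring
  rw [h2, h1, h3, e0_mul_e1 hx]
  simp

include hx hy in
/-- `y₊ y₋ = (1 / 4 - T²)` on the eigenspace `1 / 2`. -/
theorem yp_ym : yp x y * ym x y = ((1 / 4 : K) • 1 - TT x y * TT x y) * e1 x := by
  have h11 := e1_mul_e1 hx
  have h00 := e0_mul_e0 hx
  have h1 : yp x y * ym x y = e1 x * y * (e0 x * e0 x) * y * e1 x := by
    unfold yp ym
    noncomm_ring
  have h2 : e1 x * y * e0 x * y * e1 x + e1 x * y * e1 x * y * e1 x = (1 / 4 : K) • e1 x := by
    have h3 : e1 x * y * e0 x * y * e1 x + e1 x * y * e1 x * y * e1 x =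
        e1 x * y * (e1 x + e0 x) * y * e1 x := by noncomm_ring
    have h4 : e1 x * y * 1 * y * e1 x = e1 x * (y * y) * e1 x := by noncomm_ring
    rw [h3, e1_add_e0, h4, hy, mul_smul_comm, mul_one, smul_mul_assoc, h11]
  have h5 : TT x y * TT x y * e1 x = e1 x * y * e1 x * y * e1 x := by
    rw [mul_assoc, TT_e1 hx]
    have h6 : TT x y * (e1 x * y * e1 x) = (TT x y * e1 x) * y * e1 x := by noncomm_ring
    rw [h6, TT_e1 hx]
  rw [h1, h00, sub_mul, h5, smul_mul_assoc, one_mul, ← h2]
  abel

include hx hy in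
/-- `y₋ y₊ = (1 / 4 - T²)` on the eigenspace `- 1 / 2`. -/
theorem ym_yp : ym x y * yp x y = ((1 / 4 : K) • 1 - TT x y * TT x y) * e0 x := by
  have hx' : (-x) * (-x) = (1 / 4 : K) • 1 := by rw [neg_mul_neg, hx]
  have h1 := yp_ym (x := -x) (y := y) hx' hy
  have h2 : e1 (-x) = e0 x := by unfold e1 e0; abel
  have h3 : e0 (-x) = e1 x := by unfold e1 e0; abel
  have h4 : TT (-x) y = -TT x y := by unfold TT; noncomm_ring
  unfold yp ym at h1 ⊢
  rw [h2, h3, h4, neg_mul_neg] at h1
  exact h1

end pair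

end

end Pool.Agent.Y126.OT
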