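import Mathlib
import Pool.Agent.Y126.OT.Pair

/-!
# Square-zero elements attached to the eigenvalues of the anticommutator
-/

set_option linter.unusedSectionVars false

namespace Pool.Agent.Y126.OT

open Module Pool.Agent.W528.Odd Polynomial Pool.Agent.W261.OT.Comm

noncomputable section

variable {K : Type} [Field K] [CharZero K] {V : Type} [AddCommGroup V] [Module K V]

/-- The projection on a generalized eigenspace is a polynomial divisible by a given polynomial that
does not vanish at the eigenvalue. -/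
theorem exists_proj_poly [FiniteDimensional K V] (A : Module.End K V) (l : K) (q : K[X])
    (hq : q.eval l ≠ 0) : ∃ p : K[X], q ∣ p ∧
      (∀ w ∈ A.maxGenEigenspace l, aeval A p w = w) ∧ ∀ w, aeval A p w ∈ A.maxGenEigenspace l := by
  have hq0' : q ≠ 0 := by
    rintro rfl
    exact hq (by simp)
  have hq0 : (q * minpoly K A : K[X]) ≠ 0 :=
    mul_ne_zero hq0' (minpoly.ne_zero (Algebra.IsIntegral.isIntegral A))
  obtain ⟨Q, hQ1, hQ2⟩ := Polynomial.exists_eq_pow_rootMultiplicity_mul_and_not_dvd _ hq0 l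
  obtain ⟨k, hk⟩ : ∃ k, k = rootMultiplicity l (q * minpoly K A : K[X]) := ⟨_, rfl⟩
  rw [← hk] at hQ1
  have hcop : IsCoprime (X - C l) Q :=
    (Polynomial.irreducible_X_sub_C l).coprime_iff_not_dvd.2 hQ2
  have hX : q ∣ Q := by
    have h1 : q ∣ (X - C l) ^ k * Q := by
      rw [← hQ1]
      exact dvd_mul_right _ _
    have h2 : IsCoprime q ((X - C l) ^ k) := by
      refine IsCoprime.pow_right (IsCoprime.symm ?_)
      refine (Polynomial.irreducible_X_sub_C l).coprime_iff_not_dvd.2 ?_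
      rw [Polynomial.dvd_iff_isRoot]
      exact hq
    exact h2.dvd_of_dvd_mul_left h1
  obtain ⟨M, hM⟩ : ∃ M, M = k + finrank K V := ⟨_, rfl⟩
  have hE : ∀ w, w ∈ A.maxGenEigenspace l ↔ ((A - l • (1 : Module.End K V)) ^ M) w = 0 := by
    intro w
    rw [Module.End.mem_maxGenEigenspace]
    constructor
    · rintro ⟨j, hj⟩
      have h1 : w ∈ A.maxGenEigenspace l := (Module.End.mem_maxGenEigenspace _ _ _).2 ⟨j, hj⟩
      rw [Module.End.maxGenEigenspace_eq_genEigenspace_finrank,
        Module.End.mem_genEigenspace_nat, LinearMap.mem_ker] at h1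
      rw [hM, pow_add, Module.End.mul_apply, h1, map_zero]
    · intro h
      exact ⟨M, h⟩
  obtain ⟨u, v, huv⟩ := (IsCoprime.pow_left (m := M) hcop : IsCoprime ((X - C l) ^ M) Q)
  obtain ⟨Q', hQ'⟩ := hX
  have hae : ∀ j, aeval A ((X - C l : K[X]) ^ j) = (A - l • (1 : Module.End K V)) ^ j := by
    intro j
    rw [map_pow, map_sub, aeval_X, aeval_C, Algebra.algebraMap_eq_smul_one]
  have hkill : aeval A ((X - C l) ^ M * Q) = 0 := by
    have h1 : (X - C l) ^ M * Q = (X - C l) ^ finrank K V * ((X - C l) ^ k * Q) := by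
      rw [hM, pow_add]
      ring
    rw [h1, ← hQ1, map_mul, map_mul, minpoly.aeval, mul_zero, mul_zero]
  refine ⟨v * Q, ?_, ?_, ?_⟩
  · rw [hQ']
    exact ⟨v * Q', by ring⟩
  · intro w hw
    have h1 : v * Q = 1 - u * (X - C l) ^ M := by
      rw [← huv]
      ring
    rw [h1, map_sub, map_one, map_mul, hae, LinearMap.sub_apply, Module.End.mul_apply,
      (hE w).1 hw, map_zero, sub_zero]
    rfl
  · intro w
    rw [hE, ← Module.End.mul_apply, ← hae, ← map_mul]
    have h1 : (X - C l) ^ M * (v * Q) = v * ((X - C l) ^ M * Q) := by ring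
    rw [h1, map_mul, hkill, mul_zero]
    rfl

section pair

variable {x y : Module.End K V} (hx : x * x = (1 / 4 : K) • 1) (hy : y * y = (1 / 4 : K) • 1)

theorem e1_fix_of {x : Module.End K V} (w : V) : e1 x w + e0 x w = w := by
  rw [← LinearMap.add_apply, e1_add_e0]
  rfl

include hx in
theorem mem_E_e1 (c : K) {w : V} (hw : w ∈ (TT x y).maxGenEigenspace c) :
    e1 x w ∈ (TT x y).maxGenEigenspace c := by
  rw [Module.End.mem_maxGenEigenspace] at hw ⊢
  obtain ⟨k, hk⟩ := hw
  refine ⟨k, ?_⟩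
  have h1 : Commute (TT x y - c • (1 : Module.End K V)) (e1 x) := by
    have h2 : Commute (TT x y) (e1 x) := TT_comm_e1 hx
    exact h2.sub_left ((Commute.one_left _).smul_left c)
  rw [← Module.End.mul_apply, (h1.pow_left k).eq, Module.End.mul_apply, hk, map_zero]

include hx in
theorem mem_E_e0 (c : K) {w : V} (hw : w ∈ (TT x y).maxGenEigenspace c) :
    e0 x w ∈ (TT x y).maxGenEigenspace c := by
  have h1 : e0 x w = w - e1 x w := by
    rw [eq_sub_iff_add_eq, add_comm]
    exact e1_fix_of w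
  rw [h1]
  exact Submodule.sub_mem _ hw (mem_E_e1 hx c hw)

theorem commute_E {z : Module.End K V} (h : TT x y * z = z * TT x y) (c : K) {w : V}
    (hw : w ∈ (TT x y).maxGenEigenspace c) : z w ∈ (TT x y).maxGenEigenspace c := by
  rw [Module.End.mem_maxGenEigenspace] at hw ⊢
  obtain ⟨k, hk⟩ := hw
  refine ⟨k, ?_⟩
  have h1 : Commute (TT x y - c • (1 : Module.End K V)) z := by
    have h2 : Commute (TT x y) z := h
    exact h2.sub_left ((Commute.one_left _).smul_left c)
  rw [← Module.End.mul_apply, (h1.pow_left k).eq, Module.End.mul_apply, hk, map_zero]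

include hx hy in
theorem TT_comm_yp : TT x y * yp x y = yp x y * TT x y := by
  have h1 := TT_comm_e1 (y := y) hx
  have h2 := TT_comm_e0 (y := y) hx
  have h3 := TT_comm_y (x := x) hy
  unfold yp
  calc TT x y * (e1 x * y * e0 x) = (TT x y * e1 x) * y * e0 x := by noncomm_ring
    _ = e1 x * (TT x y * y) * e0 x := by rw [h1]; noncomm_ring
    _ = e1 x * y * (TT x y * e0 x) := by rw [h3]; noncomm_ring
    _ = e1 x * y * e0 x * TT x y := by rw [h2]; noncomm_ring

include hx hy in
theorem TT_comm_ym : TT x y * ym x y = ym x y * TT x y := by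
  have h1 := TT_comm_e1 (y := y) hx
  have h2 := TT_comm_e0 (y := y) hx
  have h3 := TT_comm_y (x := x) hy
  unfold ym
  calc TT x y * (e0 x * y * e1 x) = (TT x y * e0 x) * y * e1 x := by noncomm_ring
    _ = e0 x * (TT x y * y) * e1 x := by rw [h2]; noncomm_ring
    _ = e0 x * y * (TT x y * e1 x) := by rw [h3]; noncomm_ring
    _ = e0 x * y * e1 x * TT x y := by rw [h1]; noncomm_ring

include hx hy in
/-- **The rank of the square-zero element.** -/
theorem exists_pair_poly [FiniteDimensional K V] {c : K} (hc : c * c ≠ 1 / 4) {d : ℕ}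
    (hd : 2 * d = finrank K ((TT x y).maxGenEigenspace c)) :
    ∃ p : K[X], rk (aeval (TT x y) p * yp x y) = d := by
  obtain ⟨E, hE⟩ : ∃ E, E = (TT x y).maxGenEigenspace c := ⟨_, rfl⟩
  rw [← hE] at hd
  obtain ⟨p, ⟨q, hq⟩, hp1, hp2⟩ := exists_proj_poly (TT x y) c (C (1 / 4) - X * X) (by
    simp only [eval_sub, eval_C, eval_mul, eval_X]
    intro h
    exact hc (sub_eq_zero.1 h).symm)
  rw [← hE] at hp1 hp2
  have haq : aeval (TT x y) p = ((1 / 4 : K) • 1 - TT x y * TT x y) * aeval (TT x y) q := by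
    rw [hq, map_mul, map_sub, aeval_C, map_mul, aeval_X, Algebra.algebraMap_eq_smul_one]
  have h11 := e1_mul_e1 hx
  have h00 := e0_mul_e0 hx
  have h10 := e1_mul_e0 hx
  have h01 := e0_mul_e1 hx
  have hce1 : e1 x * aeval (TT x y) q = aeval (TT x y) q * e1 x :=
    (aeval_comm (TT_comm_e1 hx) q).symm
  have hce0 : e0 x * aeval (TT x y) q = aeval (TT x y) q * e0 x :=
    (aeval_comm (TT_comm_e0 hx) q).symm
  -- the range
  have hrange : LinearMap.range (aeval (TT x y) p * yp x y) = E ⊓ LinearMap.range (e1 x) := by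
    apply le_antisymm
    · rintro _ ⟨w, rfl⟩
      refine ⟨hp2 _, ?_⟩
      have h1 : aeval (TT x y) p * yp x y = e1 x * (aeval (TT x y) p * y * e0 x) := by
        have h2 : e1 x * (aeval (TT x y) p * y * e0 x) = (e1 x * aeval (TT x y) p) * y * e0 x := by
          noncomm_ring
        rw [h2, ← aeval_comm (TT_comm_e1 hx) p]
        unfold yp
        noncomm_ring
      rw [h1]
      exact ⟨_, rfl⟩
    · rintro w ⟨hwE, hw1⟩
      have hfix : e1 x w = w := by
        obtain ⟨u, rfl⟩ := hw1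
        rw [← Module.End.mul_apply, h11]
      refine ⟨ym x y (aeval (TT x y) q w), ?_⟩
      have h1 : yp x y (ym x y (aeval (TT x y) q w)) = w := by
        rw [← Module.End.mul_apply (yp x y), yp_ym hx hy, Module.End.mul_apply,
          ← Module.End.mul_apply (e1 x), hce1, Module.End.mul_apply, hfix, ← Module.End.mul_apply,
          ← haq]
        exact hp1 w hwE
      rw [Module.End.mul_apply, h1]
      exact hp1 w hwE
  refine ⟨p, ?_⟩
  rw [rk, hrange]
  -- the two halves have the same dimension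
  have hpk : ∀ w ∈ E, ((1 / 4 : K) • (1 : Module.End K V) - TT x y * TT x y) w = 0 → w = 0 := by
    intro w hw h0
    have h1 := hp1 w hw
    rw [haq] at h1
    have h2 : Commute ((1 / 4 : K) • (1 : Module.End K V) - TT x y * TT x y)
        (aeval (TT x y) q) := by
      have h3 : (1 / 4 : K) • (1 : Module.End K V) - TT x y * TT x y =
          aeval (TT x y) (C (1 / 4) - X * X : K[X]) := by
        rw [map_sub, aeval_C, map_mul, aeval_X, Algebra.algebraMap_eq_smul_one]
      rw [h3]
      change _ * _ = _ * _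
      rw [← map_mul, ← map_mul, mul_comm]
    rw [h2.eq, Module.End.mul_apply, h0, map_zero] at h1
    exact h1.symm
  let E1 : Submodule K V := E ⊓ LinearMap.range (e1 x)
  let E0 : Submodule K V := E ⊓ LinearMap.range (e0 x)
  have hf1 : ∀ w ∈ E1, e1 x w = w := by
    rintro w ⟨-, u, rfl⟩
    rw [← Module.End.mul_apply, h11]
  have hf0 : ∀ w ∈ E0, e0 x w = w := by
    rintro w ⟨-, u, rfl⟩
    rw [← Module.End.mul_apply, h00]
  have hm10 : ∀ w ∈ E1, ym x y w ∈ E0 := by
    intro w hw
    refine ⟨?_, ?_⟩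
    · rw [hE]
      exact commute_E (TT_comm_ym hx hy) c (hE ▸ hw.1)
    · exact ⟨(y * e1 x) w, by unfold ym; simp only [Module.End.mul_apply]⟩
  have hm01 : ∀ w ∈ E0, yp x y w ∈ E1 := by
    intro w hw
    refine ⟨?_, ?_⟩
    · rw [hE]
      exact commute_E (TT_comm_yp hx hy) c (hE ▸ hw.1)
    · exact ⟨(y * e0 x) w, by unfold yp; simp only [Module.End.mul_apply]⟩
  have hle1 : finrank K E1 ≤ finrank K E0 := by
    refine LinearMap.finrank_le_finrank_of_injective (f := (ym x y).restrict hm10) ?_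
    rw [injective_iff_map_eq_zero]
    rintro ⟨w, hw⟩ h
    apply Subtype.ext
    have h1 : ym x y w = 0 := congrArg Subtype.val h
    refine hpk w hw.1 ?_
    have h2 := congrArg (fun z => (yp x y) z) h1
    simp only [map_zero] at h2
    rw [← Module.End.mul_apply, yp_ym hx hy, Module.End.mul_apply, hf1 w hw] at h2
    exact h2
  have hle0 : finrank K E0 ≤ finrank K E1 := by
    refine LinearMap.finrank_le_finrank_of_injective (f := (yp x y).restrict hm01) ?_
    rw [injective_iff_map_eq_zero]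
    rintro ⟨w, hw⟩ h
    apply Subtype.ext
    have h1 : yp x y w = 0 := congrArg Subtype.val h
    refine hpk w hw.1 ?_
    have h2 := congrArg (fun z => (ym x y) z) h1
    simp only [map_zero] at h2
    rw [← Module.End.mul_apply, ym_yp hx hy, Module.End.mul_apply, hf0 w hw] at h2
    exact h2
  have hinf : E1 ⊓ E0 = ⊥ := by
    rw [eq_bot_iff]
    rintro w ⟨hw1, hw0⟩
    have h1 := hf1 w hw1
    rw [← hf0 w hw0, ← Module.End.mul_apply, h10] at h1
    rw [Submodule.mem_bot, ← hf0 w hw0]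
    exact h1.symm
  have hsup : E1 ⊔ E0 = E := by
    apply le_antisymm (sup_le inf_le_left inf_le_left)
    intro w hw
    rw [← e1_fix_of (x := x) w]
    refine Submodule.add_mem_sup ⟨?_, ⟨w, rfl⟩⟩ ⟨?_, ⟨w, rfl⟩⟩
    · rw [hE] at hw ⊢
      exact mem_E_e1 hx c hw
    · rw [hE] at hw ⊢
      exact mem_E_e0 hx c hw
  have hsum := Submodule.finrank_sup_add_finrank_inf_eq E1 E0
  rw [hinf, hsup, finrank_bot, add_zero] at hsum
  change finrank K E1 = d
  omega

end pair

section alg

variable [FiniteDimensional K V] {𝔥 : Submodule K (Module.End K V)}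
  (hbr : ∀ X ∈ 𝔥, ∀ Y ∈ 𝔥, X * Y - Y * X ∈ 𝔥)

include hbr in
theorem unX_mem_sl0 {x : Module.End K V} (hxm : x ∈ 𝔥) (hx : x * x = (1 / 4 : K) • 1) :
    unX hx ∈ Nz (sl0 𝔥) := by
  refine unX_mem hx fun y hy => ⟨hbr x hxm y hy.1, ?_⟩
  change LinearMap.trace K V _ = 0
  rw [map_sub, LinearMap.trace_mul_comm, sub_self]

include hbr in
/-- The algebra generated by the conjugates of `n` is stable under the components with respect to
`x`. -/
theorem comp_alg {x n : Module.End K V} (hxm : x ∈ 𝔥) (hx : x * x = (1 / 4 : K) • 1)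
    {b : Module.End K V} (hb : b ∈ Alg (rN (sl0 𝔥)) n) :
    yp x b ∈ Alg (rN (sl0 𝔥)) n ∧ ym x b ∈ Alg (rN (sl0 𝔥)) n := by
  let g : Nz (sl0 𝔥) := ⟨unX hx, unX_mem_sl0 hbr hxm hx⟩
  have hc : ∀ b ∈ Alg (rN (sl0 𝔥)) n, b + yp x b - (1 / 2 : K) • ym x b ∈
      Alg (rN (sl0 𝔥)) n := by
    intro b hb
    have h1 := conj_mem (rN (sl0 𝔥)) n g b hb
    have h2 : rN (sl0 𝔥) g = (3 / 2 : K) • 1 + x := rfl
    have h3 : rN (sl0 𝔥) g⁻¹ = (3 / 4 : K) • 1 - (1 / 2 : K) • x := rfl
    rw [h2, h3] at h1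
    have h4 : ((3 / 2 : K) • 1 + x) * b * ((3 / 4 : K) • 1 - (1 / 2 : K) • x) =
        b + yp x b - (1 / 2 : K) • ym x b := by
      unfold yp ym e1 e0
      have h5 : b = (4 : K) • ((1 / 4 : K) • b) := by rw [smul_smul]; norm_num
      simp only [mul_sub, mul_add, add_mul, sub_mul, smul_mul_assoc, mul_smul_comm, one_mul,
        mul_one, smul_sub, smul_add, smul_smul]
      module
    rw [h4] at h1
    exact h1
  have hx' := hx
  have h11 := e1_mul_e1 hx
  have h00 := e0_mul_e0 hx
  have h10 := e1_mul_e0 hx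
  have h01 := e0_mul_e1 hx
  have h1 := hc b hb
  have h2 := hc _ h1
  have hyp : yp x (b + yp x b - (1 / 2 : K) • ym x b) = (2 : K) • yp x b := by
    have e : yp x (b + yp x b - (1 / 2 : K) • ym x b) = e1 x * b * e0 x +
        (e1 x * e1 x) * b * (e0 x * e0 x) - (1 / 2 : K) • ((e1 x * e0 x) * b * (e1 x * e0 x)) := by
      unfold yp ym
      simp only [mul_sub, mul_add, add_mul, sub_mul, smul_mul_assoc, mul_smul_comm, mul_assoc]
    rw [e, h11, h00, h10, zero_mul, zero_mul, smul_zero, sub_zero, ← two_smul K]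
    rfl
  have hym : ym x (b + yp x b - (1 / 2 : K) • ym x b) = (1 / 2 : K) • ym x b := by
    have e : ym x (b + yp x b - (1 / 2 : K) • ym x b) = e0 x * b * e1 x +
        (e0 x * e1 x) * b * (e0 x * e1 x) - (1 / 2 : K) • ((e0 x * e0 x) * b * (e1 x * e1 x)) := by
      unfold yp ym
      simp only [mul_sub, mul_add, add_mul, sub_mul, smul_mul_assoc, mul_smul_comm, mul_assoc]
    rw [e, h11, h00, h01, zero_mul, zero_mul, add_zero]
    change ym x b - (1 / 2 : K) • ym x b = _
    module
  rw [hyp, hym] at h2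
  have h3 : yp x b ∈ Alg (rN (sl0 𝔥)) n := by
    have h4 : yp x b = (2 / 3 : K) • ((b + yp x b - (1 / 2 : K) • ym x b + (2 : K) • yp x b -
        (1 / 2 : K) • (1 / 2 : K) • ym x b) - b - (3 / 2 : K) • ((b + yp x b -
          (1 / 2 : K) • ym x b) - b)) := by module
    rw [h4]
    exact Subalgebra.smul_mem _ (Subalgebra.sub_mem _ (Subalgebra.sub_mem _ h2 hb)
      (Subalgebra.smul_mem _ (Subalgebra.sub_mem _ h1 hb) _)) _
  refine ⟨h3, ?_⟩
  have h4 : ym x b = (2 : K) • (yp x b - ((b + yp x b - (1 / 2 : K) • ym x b) - b)) := by module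
  rw [h4]
  exact Subalgebra.smul_mem _ (Subalgebra.sub_mem _ h3 (Subalgebra.sub_mem _ h1 hb)) _

include hbr in
theorem TT_pow_alg {x y : Module.End K V} (hxm : x ∈ 𝔥) (hym : y ∈ 𝔥)
    (hx : x * x = (1 / 4 : K) • 1) (hy : y * y = (1 / 4 : K) • 1) (k : ℕ) :
    TT x y ^ k * yp x y ∈ Alg (rN (sl0 𝔥)) (yp x y) := by
  induction k with
  | zero =>
    rw [pow_zero, one_mul]
    refine Algebra.subset_adjoin ⟨1, ?_⟩
    simp
  | succ k ih =>
    obtain ⟨b, hbd⟩ : ∃ b, b = TT x y ^ k * yp x y := ⟨_, rfl⟩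
    rw [← hbd] at ih
    have h11 := e1_mul_e1 hx
    have h00 := e0_mul_e0 hx
    have h10 := e1_mul_e0 hx
    have h01 := e0_mul_e1 hx
    have h1 := comp_alg hbr hym hy ih
    have h2 : y * b - b * y ∈ Alg (rN (sl0 𝔥)) (yp x y) := by
      rw [br_eq hy]
      exact Subalgebra.sub_mem _ h1.1 h1.2
    have h3 := (comp_alg hbr hxm hx h2).1
    have hcT : Commute (TT x y ^ k) (e1 x) :=
      (show Commute (TT x y) (e1 x) from TT_comm_e1 hx).pow_left k
    have hb1 : e1 x * b = b := by
      have h : e1 x * yp x y = yp x y := by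
        unfold yp
        rw [← mul_assoc, ← mul_assoc, h11]
      rw [hbd, ← mul_assoc, ← hcT.eq, mul_assoc, h]
    have hb0 : b * e0 x = b := by
      rw [hbd, mul_assoc]
      unfold yp
      rw [mul_assoc (e1 x * y), h00]
    have hb1' : b * e1 x = 0 := by rw [← hb0, mul_assoc, h01, mul_zero]
    have hb0' : e0 x * b = 0 := by rw [← hb1, ← mul_assoc, h01, zero_mul]
    have h4 : yp x (y * b - b * y) = y0 x y * b - b * y0 x y := by
      have e5 : yp x (y * b - b * y) = e1 x * y * (b * e0 x) - (e1 x * b) * y * e0 x := by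
        unfold yp
        noncomm_ring
      have e6 : y0 x y * b - b * y0 x y = e1 x * y * (e1 x * b) + e0 x * y * (e0 x * b) -
          ((b * e1 x) * y * e1 x + (b * e0 x) * y * e0 x) := by
        unfold y0
        noncomm_ring
      rw [e5, e6, hb1, hb0, hb1', hb0']
      simp
    have hcy : Commute (y0 x y) (TT x y ^ k) :=
      Commute.pow_right (show Commute (y0 x y) (TT x y) from (TT_comm_y0 hx hy).symm) k
    have h5 : y0 x y * b - b * y0 x y = (2 : K) • (TT x y ^ (k + 1) * yp x y) := by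
      rw [hbd, ← mul_assoc, hcy.eq, mul_assoc, mul_assoc, ← mul_sub, br_y0 hx hy, mul_smul_comm,
        pow_succ, mul_assoc]
    rw [h4, h5] at h3
    have h6 := Subalgebra.smul_mem _ h3 (1 / 2 : K)
    rwa [smul_smul, show (1 / 2 * 2 : K) = 1 by norm_num, one_smul] at h6

include hbr in
theorem TT_poly_alg {x y : Module.End K V} (hxm : x ∈ 𝔥) (hym : y ∈ 𝔥)
    (hx : x * x = (1 / 4 : K) • 1) (hy : y * y = (1 / 4 : K) • 1) (p : K[X]) :
    aeval (TT x y) p * yp x y ∈ Alg (rN (sl0 𝔥)) (yp x y) := by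
  rw [Polynomial.aeval_eq_sum_range, Finset.sum_mul]
  refine Subalgebra.sum_mem _ fun i _ => ?_
  rw [smul_mul_assoc]
  exact Subalgebra.smul_mem _ (TT_pow_alg hbr hxm hym hx hy i) _

end alg

end

end Pool.Agent.Y126.OT
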