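import Mathlib
import Pool.Agent.W528.Odd.Core
import Pool.Agent.W528.Tor.Core3
import Pool.Agent.W528.Tor.Rank

/-!
# A Lie algebra of symplectic operators with a square-zero element of rank two
-/

set_option linter.unusedSectionVars false

namespace Pool.Agent.Y126.OT

open Module Pool.Agent.W528.Odd Pool.Agent.H204R3.SP Pool.Agent.W529.Ta

noncomputable section

variable {K : Type} [Field K] [CharZero K] {V : Type} [AddCommGroup V] [Module K V]

/-- The group of the symplectic similitudes that normalise `𝔥`, with their multipliers. -/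
def Nsim (ω : V →ₗ[K] V →ₗ[K] K) (𝔥 : Submodule K (Module.End K V)) :
    Subgroup ((Module.End K V)ˣ × Kˣ) where
  carrier := {g | g.1 ∈ Nz 𝔥 ∧ ∀ u v, ω ((g.1 : Module.End K V) u) ((g.1 : Module.End K V) v) =
    (g.2 : K) * ω u v}
  one_mem' := ⟨(Nz 𝔥).one_mem, fun u v => by simp⟩
  mul_mem' := by
    rintro a b ⟨ha1, ha2⟩ ⟨hb1, hb2⟩
    refine ⟨(Nz 𝔥).mul_mem ha1 hb1, fun u v => ?_⟩
    rw [Prod.fst_mul, Prod.snd_mul, Units.val_mul, Units.val_mul, Module.End.mul_apply,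
      Module.End.mul_apply, ha2, hb2, mul_assoc]
  inv_mem' := by
    rintro a ⟨ha1, ha2⟩
    refine ⟨(Nz 𝔥).inv_mem ha1, fun u v => ?_⟩
    obtain ⟨b, hb⟩ : ∃ b : Module.End K V, b = (((a.1)⁻¹ : (Module.End K V)ˣ) :
      Module.End K V) := ⟨_, rfl⟩
    have h1 : ∀ w, (a.1 : Module.End K V) (b w) = w := by
      intro w
      rw [← Module.End.mul_apply, hb, ← Units.val_mul, mul_inv_cancel]
      rfl
    have h2 := ha2 (b u) (b v)
    rw [h1, h1] at h2
    rw [Prod.fst_inv, ← hb]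
    rw [h2, Prod.snd_inv, ← mul_assoc, Units.inv_mul, one_mul]

/-- The representation of the group of similitudes. -/
def rS (ω : V →ₗ[K] V →ₗ[K] K) (𝔥 : Submodule K (Module.End K V)) :
    Representation K (Nsim ω 𝔥) V :=
  (Units.coeHom (Module.End K V)).comp ((MonoidHom.fst _ _).comp (Nsim ω 𝔥).subtype)

/-- The multiplier. -/
def chS (ω : V →ₗ[K] V →ₗ[K] K) (𝔥 : Submodule K (Module.End K V)) : Nsim ω 𝔥 →* K :=
  (Units.coeHom K).comp ((MonoidHom.snd _ _).comp (Nsim ω 𝔥).subtype)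

variable {Γ : Type} [Group Γ] (ρ : Representation K Γ V)

/-- The homomorphism to the group of similitudes. -/
def toS {ω : V →ₗ[K] V →ₗ[K] K} {𝔥 : Submodule K (Module.End K V)} (χ : Γ →* K)
    (hωρ : ∀ s u v, ω (ρ s u) (ρ s v) = χ s * ω u v)
    (hconj : ∀ s : Γ, ∀ X ∈ 𝔥, ρ s * X * ρ s⁻¹ ∈ 𝔥) : Γ →* Nsim ω 𝔥 where
  toFun g := ⟨((toN ρ hconj g : (Module.End K V)ˣ), χ.toHomUnits g),
    (toN ρ hconj g).2, fun u v => hωρ g u v⟩
  map_one' := by
    apply Subtype.ext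
    apply Prod.ext
    · exact congrArg Subtype.val (map_one (toN ρ hconj))
    · exact map_one χ.toHomUnits
  map_mul' a b := by
    apply Subtype.ext
    apply Prod.ext
    · exact congrArg Subtype.val (map_mul (toN ρ hconj) a b)
    · exact map_mul χ.toHomUnits a b

theorem sIrr_rS {ω : V →ₗ[K] V →ₗ[K] K} {𝔥 : Submodule K (Module.End K V)} (χ : Γ →* K)
    (hirr : SIrr ρ) (hωρ : ∀ s u v, ω (ρ s u) (ρ s v) = χ s * ω u v)
    (hconj : ∀ s : Γ, ∀ X ∈ 𝔥, ρ s * X * ρ s⁻¹ ∈ 𝔥) : SIrr (rS ω 𝔥) := by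
  intro Δ hΔ W hW
  refine hirr (Δ.comap (toS ρ χ hωρ hconj)) (fi_comap _ Δ hΔ) W ?_
  intro g hg u hu
  exact hW _ hg u hu

/-- A Lie algebra of symplectic operators, stable under a group all of whose subgroups of finite
index act irreducibly, that contains a square-zero element of rank one or two is the symplectic Lie
algebra. -/
theorem all_of_rank_two [FiniteDimensional K V] [IsAlgClosed K] (χ : Γ →* K) (hirr : SIrr ρ)
    {𝔥 : Submodule K (Module.End K V)}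
    (hbr : ∀ X ∈ 𝔥, ∀ Y ∈ 𝔥, X * Y - Y * X ∈ 𝔥)
    (hconj : ∀ s : Γ, ∀ X ∈ 𝔥, ρ s * X * ρ s⁻¹ ∈ 𝔥) (ω : V →ₗ[K] V →ₗ[K] K)
    (halt : ∀ v, ω v v = 0) (hnd : ∀ u, (∀ v, ω v u = 0) → u = 0)
    (hωρ : ∀ s u v, ω (ρ s u) (ρ s v) = χ s * ω u v)
    (hsp : ∀ X ∈ 𝔥, ∀ u w, ω (X u) w + ω u (X w) = 0) {N : Module.End K V} (hN : N ∈ 𝔥)
    (hN2 : N * N = 0) (hN0 : N ≠ 0) (hr : rk N ≤ 2) : ∀ u v, SS ω u v ∈ 𝔥 := by
  obtain ⟨a, b, hab, hNi⟩ := Pool.Agent.W528.Tor.exists_SS ω halt hnd (hsp N hN) hN2 hr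
  have hnz : un1 hN2 ∈ Nz 𝔥 := by
    refine ⟨fun x hx => ?_, fun x hx => ?_⟩
    · have h1 : (1 + N) * x * (1 - N) = x + (N * x - x * N) - N * x * N := by noncomm_ring
      change (1 + N) * x * (1 - N) ∈ 𝔥
      rw [h1]
      exact 𝔥.sub_mem (𝔥.add_mem hx (hbr _ hN _ hx)) (sq_mul_mem hbr hN hN2 hx)
    · have h1 : (1 - N) * x * (1 + N) = x - (N * x - x * N) - N * x * N := by noncomm_ring
      change (1 - N) * x * (1 + N) ∈ 𝔥
      rw [h1]
      exact 𝔥.sub_mem (𝔥.sub_mem hx (hbr _ hN _ hx)) (sq_mul_mem hbr hN hN2 hx)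
  have hom : ∀ u v, ω ((1 + N) u) ((1 + N) v) = ω u v := by
    intro u v
    have h1 := hsp N hN u v
    have h2 : ω (N u) (N v) = 0 := by
      have h3 := hsp N hN u (N v)
      have h4 : N (N v) = 0 := by rw [← Module.End.mul_apply, hN2]; rfl
      rw [h4, map_zero, add_zero] at h3
      exact h3
    rw [LinearMap.add_apply, LinearMap.add_apply, Module.End.one_apply, Module.End.one_apply,
      map_add, map_add, LinearMap.add_apply, LinearMap.add_apply, h2]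
    linear_combination h1
  refine Pool.Agent.W528.Tor.core ω (rS ω 𝔥) (chS ω 𝔥) halt hnd (fun g u v => g.2.2 u v)
    (sIrr_rS ρ χ hirr hωρ hconj) 𝔥 hbr (fun g X hX => g.2.1.1 X hX) hsp hab ?_ ?_
    (t := ⟨(un1 hN2, 1), hnz, fun u v => ?_⟩) ?_
  · rw [← hNi]
    exact hN0
  · rw [← hNi]
    exact hN
  · rw [Units.val_one, one_mul]
    exact hom u v
  · rw [← hNi]
    rfl

end

end Pool.Agent.Y126.OT
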